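import Mathlib
import Pool.Agent.H50.Sg2

namespace Pool.Agent.Results.MP_c132d1_al.Betti

open Pool.Agent.H50.Sg

theorem result (K : Type) [Field K] (e j : ℕ) (he : 6 ≤ e) (hj : 1 ≤ j) :
    betti K e 2 4 j = j * (e - 2).choose (j + 1) ∧
      betti K e 2 5 j = j * (e - 2).choose (j + 1) := by
  obtain ⟨j, rfl⟩ : ∃ i, j = i + 1 := ⟨j - 1, by omega⟩
  exact ⟨main he (Or.inl rfl) j, main he (Or.inr rfl) j⟩

end Pool.Agent.Results.MP_c132d1_al.Betti
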